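import Pool.Agent.H62.LV.Base
import Pool.Agent.H62.LV.Tools

/-!
Part P1 of the Lotka-Volterra control problem: finite sine sums under the heat flow.
-/

namespace Pool.Agent.H62.LV

open MeasureTheory Set Filter Topology

theorem P1_flow_hasDerivAt (L : ℝ) (N : ℕ) (c : ℕ → ℝ) (τ x : ℝ) :
    HasDerivAt (fun x => flow L N c τ x) (flow' L N c τ x) x := by
  unfold flow flow'
  apply HasDerivAt.fun_sum
  intro n _
  apply HasDerivAt.const_mul
  unfold eig
  have h1 : HasDerivAt (fun x : ℝ => ((n : ℝ) + 1) * Real.pi * x / L)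
      (((n : ℝ) + 1) * Real.pi / L) x := by
    have := ((hasDerivAt_id x).const_mul (((n : ℝ) + 1) * Real.pi)).div_const L
    simpa using this
  refine (h1.sin).congr_deriv ?_
  ring

theorem P1_flow'_hasDerivAt (L : ℝ) (N : ℕ) (c : ℕ → ℝ) (τ x : ℝ) :
    HasDerivAt (fun x => flow' L N c τ x) (flow L N (fun n => -(mu L n) * c n) τ x) x := by
  unfold flow flow'
  apply HasDerivAt.fun_sum
  intro n _
  have h1 : HasDerivAt (fun x : ℝ => ((n : ℝ) + 1) * Real.pi * x / L)
      (((n : ℝ) + 1) * Real.pi / L) x := by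
    have := ((hasDerivAt_id x).const_mul (((n : ℝ) + 1) * Real.pi)).div_const L
    simpa using this
  refine (((h1.cos).const_mul (((n : ℝ) + 1) * Real.pi / L)).const_mul
    (c n * Real.exp (-(mu L n) * τ))).congr_deriv ?_
  unfold eig mu
  ring

theorem P1_flow_hasDerivAt_time (L : ℝ) (N : ℕ) (c : ℕ → ℝ) (τ x : ℝ) :
    HasDerivAt (fun τ => flow L N c τ x) (flow L N (fun n => -(mu L n) * c n) τ x) τ := by
  unfold flow
  apply HasDerivAt.fun_sum
  intro n _
  have h1 : HasDerivAt (fun τ : ℝ => -(mu L n) * τ) (-(mu L n)) τ := by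
    have := (hasDerivAt_id τ).const_mul (-(mu L n))
    simpa using this
  refine (((h1.exp).const_mul (c n)).mul_const (eig L n x)).congr_deriv ?_
  ring

theorem P1_eig_zero (L : ℝ) (n : ℕ) : eig L n 0 = 0 := by
  simp [eig]

theorem P1_eig_L {L : ℝ} (hL : 0 < L) (n : ℕ) : eig L n L = 0 := by
  unfold eig
  rw [mul_div_assoc, div_self hL.ne', mul_one]
  have := Real.sin_nat_mul_pi (n + 1)
  push_cast at this
  exact this

theorem P1_flow_zero (L : ℝ) (N : ℕ) (c : ℕ → ℝ) (τ : ℝ) : flow L N c τ 0 = 0 := by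
  simp [flow, P1_eig_zero]

theorem P1_flow_L {L : ℝ} (hL : 0 < L) (N : ℕ) (c : ℕ → ℝ) (τ : ℝ) :
    flow L N c τ L = 0 := by
  simp [flow, P1_eig_L hL]

theorem P1_flow_continuous (L : ℝ) (N : ℕ) (c : ℕ → ℝ) :
    Continuous (fun z : ℝ × ℝ => flow L N c z.1 z.2) := by
  unfold flow eig
  fun_prop

theorem P1_flow_continuous_right (L : ℝ) (N : ℕ) (c : ℕ → ℝ) (τ : ℝ) :
    Continuous (fun x : ℝ => flow L N c τ x) := by
  unfold flow eig
  fun_prop

theorem P1_flow'_continuous_right (L : ℝ) (N : ℕ) (c : ℕ → ℝ) (τ : ℝ) :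
    Continuous (fun x : ℝ => flow' L N c τ x) := by
  unfold flow'
  fun_prop

/-- a function with positive derivative is smaller at some points close on the left -/
theorem P1_exists_lt_of_deriv_pos {f : ℝ → ℝ} {c s₀ : ℝ} (hs : 0 < s₀)
    (hd : HasDerivAt f c s₀) (hc : 0 < c) : ∃ s ∈ Ioo 0 s₀, f s < f s₀ := by
  have h1 := hasDerivAt_iff_tendsto_slope.mp hd
  have h2 : ∀ᶠ x in 𝓝[≠] s₀, 0 < slope f s₀ x := h1.eventually (lt_mem_nhds hc)
  have h3 : ∀ᶠ x in 𝓝[<] s₀, 0 < slope f s₀ x :=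
    h2.filter_mono (nhdsWithin_mono _ (fun x hx => ne_of_lt hx))
  have h4 : ∀ᶠ x in 𝓝[<] s₀, 0 < x := by
    filter_upwards [nhdsWithin_le_nhds (Ioi_mem_nhds hs)] with x hx using hx
  have h5 : ∀ᶠ x in 𝓝[<] s₀, x < s₀ := self_mem_nhdsWithin
  obtain ⟨s, h6, h7, h8⟩ := (h3.and (h4.and h5)).exists
  refine ⟨s, ⟨h7, h8⟩, ?_⟩
  rw [slope_def_field] at h6
  have h9 : s - s₀ < 0 := by linarith
  have h10 : f s - f s₀ < 0 := by
    by_contra hcon
    push Not at hcon
    have := div_nonpos_of_nonneg_of_nonpos hcon h9.le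
    linarith
  linarith

theorem P1_flow_ge {L : ℝ} (hL : 0 < L) {N : ℕ} {c : ℕ → ℝ}
    (h : ∀ x ∈ Icc 0 L, 0 ≤ flow L N c 0 x) {τ : ℝ} (hτ : 0 ≤ τ) {ε : ℝ} (hε : 0 < ε) :
    ∀ x ∈ Icc 0 L, 0 ≤ flow L N c τ x + ε * (1 + τ) := by
  set g : ℝ × ℝ → ℝ := fun z => flow L N c z.1 z.2 + ε * (1 + z.1) with hg
  have hgc : Continuous g := by
    have := P1_flow_continuous L N c
    rw [hg]
    exact this.add (by fun_prop)
  have hK : IsCompact (Icc 0 τ ×ˢ Icc 0 L : Set (ℝ × ℝ)) := isCompact_Icc.prod isCompact_Icc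
  have hne : (Icc 0 τ ×ˢ Icc 0 L : Set (ℝ × ℝ)).Nonempty :=
    ⟨(0, 0), ⟨le_refl _, hτ⟩, ⟨le_refl _, hL.le⟩⟩
  obtain ⟨z₀, hz₀, hmin⟩ := hK.exists_isMinOn hne hgc.continuousOn
  obtain ⟨⟨hs1, hs2⟩, hx1, hx2⟩ := hz₀
  have key : 0 ≤ g z₀ := by
    by_contra hneg
    push Not at hneg
    have hneg' : flow L N c z₀.1 z₀.2 + ε * (1 + z₀.1) < 0 := hneg
    have hpos : 0 < ε * (1 + z₀.1) := by positivity
    have hs0 : z₀.1 ≠ 0 := by
      intro h0
      rw [h0] at hneg'
      have := h z₀.2 ⟨hx1, hx2⟩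
      linarith
    have hx0 : z₀.2 ≠ 0 := by
      intro h0
      rw [h0, P1_flow_zero] at hneg'
      linarith
    have hxL : z₀.2 ≠ L := by
      intro h0
      rw [h0, P1_flow_L hL] at hneg'
      linarith
    have hs3 : 0 < z₀.1 := lt_of_le_of_ne hs1 (Ne.symm hs0)
    have hx3 : 0 < z₀.2 := lt_of_le_of_ne hx1 (Ne.symm hx0)
    have hx4 : z₀.2 < L := lt_of_le_of_ne hx2 hxL
    have h1 := second_ge_zero_of_min (f := fun x => flow L N c z₀.1 x + ε * (1 + z₀.1))
      (f' := fun x => flow' L N c z₀.1 x)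
      (c := flow L N (fun n => -(mu L n) * c n) z₀.1 z₀.2)
      (l := 0) (r := L) (x₀ := z₀.2) ⟨hx3, hx4⟩
      (fun x _ => (P1_flow_hasDerivAt L N c z₀.1 x).add_const _)
      (P1_flow'_hasDerivAt L N c z₀.1 z₀.2)
      (fun x hx => by
        have := hmin (a := (z₀.1, x)) ⟨⟨hs1, hs2⟩, hx.1.le, hx.2.le⟩
        simpa [hg] using this)
    have h2 : HasDerivAt (fun s => flow L N c s z₀.2 + ε * (1 + s))
        (flow L N (fun n => -(mu L n) * c n) z₀.1 z₀.2 + ε) z₀.1 := by
      have h3 := P1_flow_hasDerivAt_time L N c z₀.1 z₀.2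
      have h4 : HasDerivAt (fun s : ℝ => ε * (1 + s)) ε z₀.1 := by
        have := ((hasDerivAt_id z₀.1).const_add 1).const_mul ε
        simpa using this
      exact h3.add h4
    obtain ⟨s, hs, hlt⟩ := P1_exists_lt_of_deriv_pos hs3 h2 (by linarith [h1.2])
    have := hmin (a := (s, z₀.2)) ⟨⟨hs.1.le, hs.2.le.trans hs2⟩, hx1, hx2⟩
    have h5 : g z₀ ≤ g (s, z₀.2) := this
    simp only [hg] at h5
    linarith
  intro x hx
  have := hmin (a := (τ, x)) ⟨⟨hτ, le_refl _⟩, hx⟩
  have h5 : g z₀ ≤ g (τ, x) := this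
  simp only [hg] at h5 key
  linarith

theorem flow_nonneg {L : ℝ} (hL : 0 < L) {N : ℕ} {c : ℕ → ℝ}
    (h : ∀ x ∈ Icc 0 L, 0 ≤ flow L N c 0 x) {τ : ℝ} (hτ : 0 ≤ τ) :
    (∀ x ∈ Icc 0 L, 0 ≤ flow L N c τ x) ∧ 0 ≤ flow' L N c τ 0 ∧ flow' L N c τ L ≤ 0 := by
  have h1 : ∀ x ∈ Icc 0 L, 0 ≤ flow L N c τ x := by
    intro x hx
    by_contra hneg
    push Not at hneg
    have hp : 0 < 1 + τ := by linarith
    have := P1_flow_ge hL h hτ (ε := -(flow L N c τ x) / (2 * (1 + τ)))
      (div_pos (by linarith) (by linarith)) x hx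
    have h2 : -(flow L N c τ x) / (2 * (1 + τ)) * (1 + τ) = -(flow L N c τ x) / 2 := by
      field_simp
    rw [h2] at this
    linarith
  refine ⟨h1, ?_, ?_⟩
  · have hs := hasDerivAt_iff_tendsto_slope.mp (P1_flow_hasDerivAt L N c τ 0)
    have hs' : Tendsto (slope (fun x => flow L N c τ x) 0) (𝓝[>] 0) (𝓝 (flow' L N c τ 0)) :=
      hs.mono_left (nhdsWithin_mono _ (fun x hx => ne_of_gt hx))
    refine ge_of_tendsto hs' ?_
    have h4 : ∀ᶠ x in 𝓝[>] (0 : ℝ), x < L := by
      filter_upwards [nhdsWithin_le_nhds (Iio_mem_nhds hL)] with x hx using hx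
    filter_upwards [h4, self_mem_nhdsWithin] with x hx hx'
    have hx'' : 0 < x := hx'
    rw [slope_def_field, P1_flow_zero, sub_zero, sub_zero]
    exact div_nonneg (h1 x ⟨hx''.le, hx.le⟩) hx''.le
  · have hs := hasDerivAt_iff_tendsto_slope.mp (P1_flow_hasDerivAt L N c τ L)
    have hs' : Tendsto (slope (fun x => flow L N c τ x) L) (𝓝[<] L) (𝓝 (flow' L N c τ L)) :=
      hs.mono_left (nhdsWithin_mono _ (fun x hx => ne_of_lt hx))
    refine le_of_tendsto hs' ?_
    have h4 : ∀ᶠ x in 𝓝[<] L, 0 < x := by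
      filter_upwards [nhdsWithin_le_nhds (Ioi_mem_nhds hL)] with x hx using hx
    filter_upwards [h4, self_mem_nhdsWithin] with x hx hx'
    have hx'' : x < L := hx'
    rw [slope_def_field, P1_flow_L hL, sub_zero]
    exact div_nonpos_of_nonneg_of_nonpos (h1 x ⟨hx.le, hx''.le⟩) (by linarith)

theorem P1_integral_flow (L : ℝ) (N : ℕ) (c : ℕ → ℝ) (τ : ℝ) :
    ∫ x in (0 : ℝ)..L, flow L N c τ x =
      ∑ n ∈ Finset.range N, c n * Real.exp (-(mu L n) * τ) * ∫ x in (0 : ℝ)..L, eig L n x := by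
  unfold flow
  rw [intervalIntegral.integral_finsetSum]
  · apply Finset.sum_congr rfl
    intro n _
    rw [intervalIntegral.integral_const_mul]
  · intro n _
    apply Continuous.intervalIntegrable
    unfold eig
    fun_prop

theorem P1_integral_hasDerivAt (L : ℝ) (N : ℕ) (c : ℕ → ℝ) (τ : ℝ) :
    HasDerivAt (fun τ => ∫ x in (0 : ℝ)..L, flow L N c τ x)
      (flow' L N c τ L - flow' L N c τ 0) τ := by
  have h1 : ∫ x in (0 : ℝ)..L, flow L N (fun n => -(mu L n) * c n) τ x =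
      flow' L N c τ L - flow' L N c τ 0 := by
    exact intervalIntegral.integral_eq_sub_of_hasDerivAt (f := fun x => flow' L N c τ x)
      (fun x _ => P1_flow'_hasDerivAt L N c τ x)
      ((P1_flow_continuous_right L N _ τ).intervalIntegrable _ _)
  rw [← h1, P1_integral_flow]
  have h2 : (fun τ => ∫ x in (0 : ℝ)..L, flow L N c τ x) =
      fun τ => ∑ n ∈ Finset.range N, c n * Real.exp (-(mu L n) * τ) *
        ∫ x in (0 : ℝ)..L, eig L n x := by
    funext τ
    exact P1_integral_flow L N c τ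
  rw [h2]
  apply HasDerivAt.fun_sum
  intro n _
  have h1 : HasDerivAt (fun τ : ℝ => -(mu L n) * τ) (-(mu L n)) τ := by
    have := (hasDerivAt_id τ).const_mul (-(mu L n))
    simpa using this
  refine (((h1.exp).const_mul (c n)).mul_const _).congr_deriv ?_
  ring

theorem flow_integral_le {L : ℝ} (hL : 0 < L) {N : ℕ} {c : ℕ → ℝ}
    (h : ∀ x ∈ Icc 0 L, 0 ≤ flow L N c 0 x) {τ : ℝ} (hτ : 0 ≤ τ) :
    ∫ x in (0 : ℝ)..L, flow L N c τ x ≤ ∫ x in (0 : ℝ)..L, flow L N c 0 x := by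
  have hanti : AntitoneOn (fun τ => ∫ x in (0 : ℝ)..L, flow L N c τ x) (Icc 0 τ) := by
    apply antitoneOn_of_hasDerivWithinAt_nonpos (convex_Icc _ _)
      (f' := fun τ => flow' L N c τ L - flow' L N c τ 0)
    · intro y hy
      exact (P1_integral_hasDerivAt L N c y).continuousAt.continuousWithinAt
    · intro y hy
      exact (P1_integral_hasDerivAt L N c y).hasDerivWithinAt
    · intro y hy
      rw [interior_Icc] at hy
      have := flow_nonneg hL h hy.1.le
      linarith [this.2.1, this.2.2]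
  exact hanti (left_mem_Icc.mpr hτ) (right_mem_Icc.mpr hτ) hτ

theorem P1_integral_cos {L : ℝ} (hL : 0 < L) {k : ℤ} (hk : k ≠ 0) :
    ∫ x in (0 : ℝ)..L, Real.cos (k * Real.pi * x / L) = 0 := by
  have hk' : (k : ℝ) ≠ 0 := by exact_mod_cast hk
  have hw : (k : ℝ) * Real.pi / L ≠ 0 :=
    div_ne_zero (mul_ne_zero hk' Real.pi_ne_zero) hL.ne'
  have h1 : ∀ x ∈ uIcc 0 L, HasDerivAt
      (fun x : ℝ => Real.sin (k * Real.pi * x / L) / (k * Real.pi / L))
      (Real.cos (k * Real.pi * x / L)) x := by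
    intro x _
    have h1 : HasDerivAt (fun x : ℝ => (k : ℝ) * Real.pi * x / L)
        ((k : ℝ) * Real.pi / L) x := by
      have := ((hasDerivAt_id x).const_mul ((k : ℝ) * Real.pi)).div_const L
      simpa using this
    refine ((h1.sin).div_const _).congr_deriv ?_
    field_simp
  rw [intervalIntegral.integral_eq_sub_of_hasDerivAt h1]
  · have h2 : (k : ℝ) * Real.pi * L / L = k * Real.pi := by field_simp
    rw [h2, Real.sin_int_mul_pi]
    simp
  · apply Continuous.intervalIntegrable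
    fun_prop

theorem P1_orth {L : ℝ} (hL : 0 < L) (n m : ℕ) :
    ∫ x in (0 : ℝ)..L, eig L n x * eig L m x = if n = m then L / 2 else 0 := by
  have h1 : ∀ x, eig L n x * eig L m x =
      (Real.cos ((((n : ℤ) - m : ℤ) : ℝ) * Real.pi * x / L) -
        Real.cos ((((n : ℤ) + m + 2 : ℤ) : ℝ) * Real.pi * x / L)) / 2 := by
    intro x
    unfold eig
    have h2 : ((((n : ℤ) - m : ℤ) : ℝ) * Real.pi * x / L) =
        ((n : ℝ) + 1) * Real.pi * x / L - ((m : ℝ) + 1) * Real.pi * x / L := by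
      push_cast; ring
    have h3 : ((((n : ℤ) + m + 2 : ℤ) : ℝ) * Real.pi * x / L) =
        ((n : ℝ) + 1) * Real.pi * x / L + ((m : ℝ) + 1) * Real.pi * x / L := by
      push_cast; ring
    rw [h2, h3, Real.cos_sub, Real.cos_add]
    ring
  simp_rw [h1]
  rw [intervalIntegral.integral_div, intervalIntegral.integral_sub]
  · rw [P1_integral_cos hL (k := (n : ℤ) + m + 2) (by positivity)]
    split_ifs with hnm
    · subst hnm
      simp
    · rw [P1_integral_cos hL (k := (n : ℤ) - m)]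
      · simp
      · intro h0
        apply hnm
        have : (n : ℤ) = m := by linarith
        exact_mod_cast this
  · apply Continuous.intervalIntegrable
    fun_prop
  · apply Continuous.intervalIntegrable
    fun_prop

theorem P1_coef {L : ℝ} (hL : 0 < L) (N : ℕ) (c : ℕ → ℝ) {n : ℕ} (hn : n < N) :
    c n = 2 / L * ∫ x in (0 : ℝ)..L, flow L N c 0 x * eig L n x := by
  have h1 : ∀ x, flow L N c 0 x * eig L n x =
      ∑ m ∈ Finset.range N, c m * (eig L m x * eig L n x) := by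
    intro x
    unfold flow
    rw [Finset.sum_mul]
    apply Finset.sum_congr rfl
    intro m _
    rw [mul_zero, Real.exp_zero]
    ring
  simp_rw [h1]
  rw [intervalIntegral.integral_finsetSum]
  · simp_rw [intervalIntegral.integral_const_mul, P1_orth hL]
    simp only [mul_ite, mul_zero]
    rw [Finset.sum_ite_eq' (Finset.range N) n, if_pos (Finset.mem_range.mpr hn)]
    field_simp
  · intro m _
    apply Continuous.intervalIntegrable
    unfold eig
    fun_prop

theorem P1_abs_eig (L : ℝ) (n : ℕ) (x : ℝ) : |eig L n x| ≤ 1 := Real.abs_sin_le_one _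

theorem P1_coef_le {L : ℝ} (hL : 0 < L) (N : ℕ) (c : ℕ → ℝ)
    (h : ∀ x ∈ Icc 0 L, 0 ≤ flow L N c 0 x) {n : ℕ} (hn : n < N) :
    |c n| ≤ 2 / L * ∫ x in (0 : ℝ)..L, flow L N c 0 x := by
  rw [P1_coef hL N c hn, abs_mul, abs_of_pos (by positivity : 0 < 2 / L)]
  apply mul_le_mul_of_nonneg_left _ (by positivity)
  refine (intervalIntegral.abs_integral_le_integral_abs hL.le).trans ?_
  have hc1 : Continuous (fun x : ℝ => flow L N c 0 x) := P1_flow_continuous_right L N c 0
  have hc2 : Continuous (fun x : ℝ => eig L n x) := by unfold eig; fun_prop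
  apply intervalIntegral.integral_mono_on hL.le
  · exact (hc1.mul hc2).abs.intervalIntegrable _ _
  · exact hc1.intervalIntegrable _ _
  · intro x hx
    rw [abs_mul, abs_of_nonneg (h x hx)]
    exact mul_le_of_le_one_right (h x hx) (P1_abs_eig L n x)

theorem P1_summable {L : ℝ} (hL : 0 < L) {τ : ℝ} (hτ : 0 < τ) :
    Summable (fun n : ℕ => Real.exp (-(mu L n) * τ)) := by
  set r := Real.exp (-((Real.pi / L) ^ 2) * τ) with hr
  have hr0 : 0 < r := Real.exp_pos _
  have hr1 : r < 1 := by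
    rw [hr, Real.exp_lt_one_iff]
    have : 0 < (Real.pi / L) ^ 2 * τ := by positivity
    linarith
  have hs : Summable (fun n : ℕ => r ^ (n + 1)) :=
    (summable_geometric_of_lt_one hr0.le hr1).comp_injective (add_left_injective 1)
  refine Summable.of_nonneg_of_le (fun n => (Real.exp_pos _).le) (fun n => ?_) hs
  rw [hr, ← Real.exp_nat_mul]
  apply Real.exp_le_exp.mpr
  unfold mu
  have h1 : (0 : ℝ) ≤ n := Nat.cast_nonneg n
  have h2 : ((n : ℝ) + 1) * Real.pi / L = ((n : ℝ) + 1) * (Real.pi / L) := by ring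
  rw [h2, mul_pow]
  push_cast
  have h3 : 0 ≤ (Real.pi / L) ^ 2 * τ := by positivity
  nlinarith [mul_nonneg h3 (mul_nonneg h1 (by linarith : (0 : ℝ) ≤ (n : ℝ) + 1))]

/-- smoothing: `L¹ → L^∞` bound -/
theorem flow_sup_le {L : ℝ} (hL : 0 < L) {τ : ℝ} (hτ : 0 < τ) : ∃ C : ℝ, 0 ≤ C ∧
    ∀ (N : ℕ) (c : ℕ → ℝ), (∀ x ∈ Icc 0 L, 0 ≤ flow L N c 0 x) →
      ∀ x ∈ Icc 0 L, flow L N c τ x ≤ C * ∫ x in (0 : ℝ)..L, flow L N c 0 x := by
  refine ⟨2 / L * ∑' n : ℕ, Real.exp (-(mu L n) * τ), ?_, ?_⟩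
  · apply mul_nonneg (by positivity)
    exact tsum_nonneg (fun n => (Real.exp_pos _).le)
  · intro N c h x _
    have hI : 0 ≤ ∫ x in (0 : ℝ)..L, flow L N c 0 x :=
      intervalIntegral.integral_nonneg hL.le h
    calc flow L N c τ x ≤ ∑ n ∈ Finset.range N,
          (2 / L * ∫ x in (0 : ℝ)..L, flow L N c 0 x) * Real.exp (-(mu L n) * τ) := by
          unfold flow
          apply Finset.sum_le_sum
          intro n hn
          have h1 := P1_coef_le hL N c h (Finset.mem_range.mp hn)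
          have h2 := P1_abs_eig L n x
          have h3 := Real.exp_pos (-(mu L n) * τ)
          calc c n * Real.exp (-(mu L n) * τ) * eig L n x
              ≤ |c n * Real.exp (-(mu L n) * τ) * eig L n x| := le_abs_self _
            _ = |c n| * Real.exp (-(mu L n) * τ) * |eig L n x| := by
                rw [abs_mul, abs_mul, abs_of_pos h3]
            _ ≤ |c n| * Real.exp (-(mu L n) * τ) * 1 :=
                mul_le_mul_of_nonneg_left h2 (mul_nonneg (abs_nonneg _) h3.le)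
            _ ≤ _ := by
                rw [mul_one]
                exact mul_le_mul_of_nonneg_right h1 h3.le
      _ = (2 / L * ∫ x in (0 : ℝ)..L, flow L N c 0 x) *
          ∑ n ∈ Finset.range N, Real.exp (-(mu L n) * τ) := by rw [Finset.mul_sum]
      _ ≤ (2 / L * ∫ x in (0 : ℝ)..L, flow L N c 0 x) *
          ∑' n : ℕ, Real.exp (-(mu L n) * τ) := by
          apply mul_le_mul_of_nonneg_left _ (mul_nonneg (by positivity) hI)
          exact (P1_summable hL hτ).sum_le_tsum _ (fun n _ => (Real.exp_pos _).le)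
      _ = _ := by ring

end Pool.Agent.H62.LV
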