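import Pool.Agent.Helper46.LV.P1

/-!
Part P2 of the Lotka-Volterra control problem: density of finite sine sums.
-/

namespace Pool.Agent.H62.LV

open MeasureTheory Set Filter Topology

theorem P2_flow_eq (L : ℝ) (N : ℕ) (c : ℕ → ℝ) (x : ℝ) :
    flow L N c 0 x = ∑ n ∈ Finset.range N, c n * eig L n x := by
  unfold flow
  apply Finset.sum_congr rfl
  intro n _
  rw [mul_zero, Real.exp_zero, mul_one]

/-- elements of the span of the eigenfunctions are finite sine sums -/
theorem P2_of_span {L : ℝ} {f : ℝ → ℝ} (hf : f ∈ Submodule.span ℝ (Set.range (eig L))) :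
    ∃ (N : ℕ) (c : ℕ → ℝ), ∀ x, f x = flow L N c 0 x := by
  induction hf using Submodule.span_induction with
  | mem f hf =>
    obtain ⟨n, rfl⟩ := hf
    refine ⟨n + 1, fun m => if m = n then 1 else 0, fun x => ?_⟩
    rw [P2_flow_eq]
    simp
  | zero => exact ⟨0, fun _ => 0, fun x => by simp [flow]⟩
  | add f g _ _ hf hg =>
    obtain ⟨N₁, c₁, h₁⟩ := hf
    obtain ⟨N₂, c₂, h₂⟩ := hg
    refine ⟨max N₁ N₂, fun n => (if n < N₁ then c₁ n else 0) + (if n < N₂ then c₂ n else 0),
      fun x => ?_⟩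
    rw [Pi.add_apply, h₁, h₂, P2_flow_eq, P2_flow_eq, P2_flow_eq]
    simp_rw [add_mul, Finset.sum_add_distrib]
    have key : ∀ (M N : ℕ) (c : ℕ → ℝ), N ≤ M →
        ∑ n ∈ Finset.range M, (if n < N then c n else 0) * eig L n x =
          ∑ n ∈ Finset.range N, c n * eig L n x := by
      intro M N c hMN
      rw [← Finset.sum_subset (Finset.range_subset_range.mpr hMN)]
      · apply Finset.sum_congr rfl
        intro n hn
        rw [if_pos (Finset.mem_range.mp hn)]
      · intro n _ hn
        rw [if_neg (by simpa using hn), zero_mul]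
    rw [key _ _ _ (le_max_left _ _), key _ _ _ (le_max_right _ _)]
  | smul a f _ hf =>
    obtain ⟨N, c, h⟩ := hf
    refine ⟨N, fun n => a * c n, fun x => ?_⟩
    rw [Pi.smul_apply, h, P2_flow_eq, P2_flow_eq, smul_eq_mul, Finset.mul_sum]
    apply Finset.sum_congr rfl
    intro n _
    ring

theorem P2_cos_mul_eig_zero (L x : ℝ) :
    Real.cos (Real.pi * x / L) * eig L 0 x = 1 / 2 * eig L 1 x := by
  unfold eig
  have h : ((1 : ℕ) + 1 : ℝ) * Real.pi * x / L = 2 * (Real.pi * x / L) := by push_cast; ring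
  rw [h, Real.sin_two_mul]
  simp only [Nat.cast_zero, zero_add, one_mul]
  ring

theorem P2_cos_mul_eig_succ (L : ℝ) (n : ℕ) (x : ℝ) :
    Real.cos (Real.pi * x / L) * eig L (n + 1) x =
      1 / 2 * eig L (n + 2) x + 1 / 2 * eig L n x := by
  unfold eig
  have h1 : (((n + 2 : ℕ) : ℝ) + 1) * Real.pi * x / L =
      (((n + 1 : ℕ) : ℝ) + 1) * Real.pi * x / L + Real.pi * x / L := by push_cast; ring
  have h2 : ((n : ℝ) + 1) * Real.pi * x / L =
      (((n + 1 : ℕ) : ℝ) + 1) * Real.pi * x / L - Real.pi * x / L := by push_cast; ring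
  rw [h1, h2, Real.sin_add, Real.sin_sub]
  ring

theorem P2_cos_mul_mem {L : ℝ} {f : ℝ → ℝ} (hf : f ∈ Submodule.span ℝ (Set.range (eig L))) :
    (fun x => Real.cos (Real.pi * x / L) * f x) ∈ Submodule.span ℝ (Set.range (eig L)) := by
  induction hf using Submodule.span_induction with
  | mem f hf =>
    obtain ⟨n, rfl⟩ := hf
    cases n with
    | zero =>
      have : (fun x => Real.cos (Real.pi * x / L) * eig L 0 x) = (1 / 2 : ℝ) • eig L 1 := by
        funext x
        rw [P2_cos_mul_eig_zero]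
        simp
      rw [this]
      exact Submodule.smul_mem _ _ (Submodule.subset_span ⟨1, rfl⟩)
    | succ n =>
      have : (fun x => Real.cos (Real.pi * x / L) * eig L (n + 1) x) =
          (1 / 2 : ℝ) • eig L (n + 2) + (1 / 2 : ℝ) • eig L n := by
        funext x
        rw [P2_cos_mul_eig_succ]
        simp
      rw [this]
      exact Submodule.add_mem _ (Submodule.smul_mem _ _ (Submodule.subset_span ⟨n + 2, rfl⟩))
        (Submodule.smul_mem _ _ (Submodule.subset_span ⟨n, rfl⟩))
  | zero =>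
    have : (fun x => Real.cos (Real.pi * x / L) * (0 : ℝ → ℝ) x) = 0 := by
      funext x; simp
    rw [this]
    exact Submodule.zero_mem _
  | add f g _ _ hf hg =>
    have : (fun x => Real.cos (Real.pi * x / L) * (f + g) x) =
        (fun x => Real.cos (Real.pi * x / L) * f x) +
          fun x => Real.cos (Real.pi * x / L) * g x := by
      funext x; simp [mul_add]
    rw [this]
    exact Submodule.add_mem _ hf hg
  | smul a f _ hf =>
    have : (fun x => Real.cos (Real.pi * x / L) * (a • f) x) =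
        a • fun x => Real.cos (Real.pi * x / L) * f x := by
      funext x; simp; ring
    rw [this]
    exact Submodule.smul_mem _ _ hf

theorem P2_pow_mem (L : ℝ) (k : ℕ) :
    (fun x => Real.sin (Real.pi * x / L) * Real.cos (Real.pi * x / L) ^ k) ∈
      Submodule.span ℝ (Set.range (eig L)) := by
  induction k with
  | zero =>
    have : (fun x => Real.sin (Real.pi * x / L) * Real.cos (Real.pi * x / L) ^ 0) = eig L 0 := by
      funext x
      simp [eig]
    rw [this]
    exact Submodule.subset_span ⟨0, rfl⟩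
  | succ k ih =>
    have := P2_cos_mul_mem ih
    convert this using 2
    ring

theorem P2_poly_mem (L : ℝ) (q : Polynomial ℝ) :
    (fun x => Real.sin (Real.pi * x / L) * q.eval (Real.cos (Real.pi * x / L))) ∈
      Submodule.span ℝ (Set.range (eig L)) := by
  have : (fun x => Real.sin (Real.pi * x / L) * q.eval (Real.cos (Real.pi * x / L))) =
      ∑ k ∈ Finset.range (q.natDegree + 1), q.coeff k •
        (fun x => Real.sin (Real.pi * x / L) * Real.cos (Real.pi * x / L) ^ k) := by
    funext x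
    rw [Polynomial.eval_eq_sum_range, Finset.mul_sum, Finset.sum_apply]
    apply Finset.sum_congr rfl
    intro k _
    simp only [Pi.smul_apply, smul_eq_mul]
    ring
  rw [this]
  exact Submodule.sum_mem _ (fun k _ => Submodule.smul_mem _ _ (P2_pow_mem L k))

theorem P2_sin_nonneg {L : ℝ} (hL : 0 < L) {x : ℝ} (hx : x ∈ Icc 0 L) :
    0 ≤ Real.sin (Real.pi * x / L) := by
  apply Real.sin_nonneg_of_nonneg_of_le_pi
  · exact div_nonneg (mul_nonneg Real.pi_pos.le hx.1) hL.le
  · rw [div_le_iff₀ hL]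
    exact mul_le_mul_of_nonneg_left hx.2 Real.pi_pos.le

theorem P2_sin_pos {L : ℝ} (hL : 0 < L) {x : ℝ} (hx : x ∈ Ioo 0 L) :
    0 < Real.sin (Real.pi * x / L) := by
  apply Real.sin_pos_of_pos_of_lt_pi
  · exact div_pos (mul_pos Real.pi_pos hx.1) hL
  · rw [div_lt_iff₀ hL]
    exact mul_lt_mul_of_pos_left hx.2 Real.pi_pos

/-- Weierstrass: `sin · f` is approximated by finite sine sums, from above if desired -/
theorem P2_approx {L : ℝ} (hL : 0 < L) {f : ℝ → ℝ} (hf : ContinuousOn f (Icc 0 L)) {ε : ℝ}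
    (hε : 0 < ε) : ∃ (N : ℕ) (c : ℕ → ℝ), ∀ x ∈ Icc 0 L,
      Real.sin (Real.pi * x / L) * f x ≤ flow L N c 0 x ∧
      |flow L N c 0 x - Real.sin (Real.pi * x / L) * f x| ≤ ε := by
  set F : ℝ → ℝ := fun u => f (Real.arccos u * L / Real.pi) with hF
  have hFc : ContinuousOn F (Icc (-1) 1) := by
    apply hf.comp
    · fun_prop
    · intro u _
      refine ⟨div_nonneg (mul_nonneg (Real.arccos_nonneg u) hL.le) Real.pi_pos.le, ?_⟩
      rw [div_le_iff₀ Real.pi_pos, mul_comm L]
      exact mul_le_mul_of_nonneg_right (Real.arccos_le_pi u) hL.le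
  obtain ⟨q, hq⟩ := exists_polynomial_near_of_continuousOn (-1) 1 F hFc (ε / 2) (by positivity)
  obtain ⟨N, c, hNc⟩ := P2_of_span (P2_poly_mem L (q + Polynomial.C (ε / 2)))
  refine ⟨N, c, fun x hx => ?_⟩
  have hx1 : 0 ≤ Real.pi * x / L := div_nonneg (mul_nonneg Real.pi_pos.le hx.1) hL.le
  have hx2 : Real.pi * x / L ≤ Real.pi := by
    rw [div_le_iff₀ hL]
    exact mul_le_mul_of_nonneg_left hx.2 Real.pi_pos.le
  have h1 : F (Real.cos (Real.pi * x / L)) = f x := by
    rw [hF]
    simp only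
    rw [Real.arccos_cos hx1 hx2]
    congr 1
    field_simp
  have h2 := hq (Real.cos (Real.pi * x / L)) ⟨Real.neg_one_le_cos _, Real.cos_le_one _⟩
  rw [h1] at h2
  rw [← hNc x]
  have h3 := P2_sin_nonneg hL hx
  have h4 := Real.sin_le_one (Real.pi * x / L)
  set s := Real.sin (Real.pi * x / L)
  set v := Polynomial.eval (Real.cos (Real.pi * x / L)) q
  have h5 : Polynomial.eval (Real.cos (Real.pi * x / L)) (q + Polynomial.C (ε / 2)) =
      v + ε / 2 := by simp [v]
  rw [h5]
  rw [abs_lt] at h2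
  have h6 : 0 ≤ v + ε / 2 - f x := by linarith [h2.1]
  have h7 : v + ε / 2 - f x ≤ ε := by linarith [h2.2]
  have h8 : s * (v + ε / 2) - s * f x = s * (v + ε / 2 - f x) := by ring
  constructor
  · have := mul_nonneg h3 h6
    linarith
  · rw [h8, abs_of_nonneg (mul_nonneg h3 h6)]
    calc s * (v + ε / 2 - f x) ≤ 1 * (v + ε / 2 - f x) := mul_le_mul_of_nonneg_right h4 h6
      _ ≤ ε := by linarith

theorem P2_intervalIntegrable {L : ℝ} (hL : 0 < L) {g : ℝ → ℝ} (hg : ContinuousOn g (Ioo 0 L))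
    {C : ℝ} (hb : ∀ x ∈ Ioo 0 L, |g x| ≤ C) : IntervalIntegrable g volume 0 L := by
  rw [intervalIntegrable_iff_integrableOn_Ioo_of_le hL.le]
  exact Integrable.of_bound (hg.aestronglyMeasurable measurableSet_Ioo) C
    ((ae_restrict_iff' measurableSet_Ioo).mpr (Eventually.of_forall hb))

/-- nonnegative finite sine sums detect nonnegativity -/
theorem detect {L : ℝ} (hL : 0 < L) {g : ℝ → ℝ} (hg : ContinuousOn g (Ioo 0 L)) {C : ℝ}
    (hb : ∀ x ∈ Ioo 0 L, |g x| ≤ C)
    (h : ∀ (N : ℕ) (c : ℕ → ℝ), (∀ x ∈ Icc 0 L, 0 ≤ flow L N c 0 x) →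
      0 ≤ ∫ x in (0 : ℝ)..L, g x * flow L N c 0 x) : ∀ x ∈ Ioo 0 L, 0 ≤ g x := by
  intro x₀ hx₀
  by_contra hneg
  push Not at hneg
  have hC : 0 ≤ C := (abs_nonneg _).trans (hb x₀ hx₀)
  have hgI := P2_intervalIntegrable hL hg hb
  -- a neighbourhood where `g ≤ g x₀ / 2`
  have hc : ContinuousAt g x₀ := hg.continuousAt (Ioo_mem_nhds hx₀.1 hx₀.2)
  have hev : ∀ᶠ x in 𝓝 x₀, g x < g x₀ / 2 := hc.eventually_lt_const (by linarith)
  obtain ⟨δ, hδ, hball⟩ := Metric.eventually_nhds_iff.mp hev
  set f : ℝ → ℝ := fun x => max 0 (δ - |x - x₀|) with hf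
  have hfc : Continuous f := by rw [hf]; fun_prop
  have hf0 : ∀ x, 0 ≤ f x := fun x => le_max_left _ _
  set ρ : ℝ → ℝ := fun x => Real.sin (Real.pi * x / L) * f x with hρ
  have hρc : Continuous ρ := by rw [hρ]; fun_prop
  have hρ0 : ∀ x ∈ Icc 0 L, 0 ≤ ρ x := fun x hx => mul_nonneg (P2_sin_nonneg hL hx) (hf0 x)
  have hρI : 0 < ∫ x in (0 : ℝ)..L, ρ x := by
    apply intervalIntegral.integral_pos hL hρc.continuousOn
    · intro x hx
      exact hρ0 x ⟨hx.1.le, hx.2⟩
    · refine ⟨x₀, ⟨hx₀.1.le, hx₀.2.le⟩, ?_⟩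
      apply mul_pos (P2_sin_pos hL hx₀)
      simp [hf, hδ]
  have hgρ : ∫ x in (0 : ℝ)..L, g x * ρ x ≤ ∫ x in (0 : ℝ)..L, g x₀ / 2 * ρ x := by
    apply intervalIntegral.integral_mono_on_of_le_Ioo hL.le
    · exact hgI.mul_continuousOn hρc.continuousOn
    · exact (continuous_const.mul hρc).intervalIntegrable _ _
    · intro x hx
      by_cases hd : dist x x₀ < δ
      · exact mul_le_mul_of_nonneg_right (hball hd).le (hρ0 x ⟨hx.1.le, hx.2.le⟩)
      · have : f x = 0 := by
          rw [hf]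
          simp only
          rw [Real.dist_eq] at hd
          push Not at hd
          exact max_eq_left (by linarith)
        simp [hρ, this]
  rw [intervalIntegral.integral_const_mul] at hgρ
  have hneg2 : ∫ x in (0 : ℝ)..L, g x * ρ x < 0 := by
    have : g x₀ / 2 * ∫ x in (0 : ℝ)..L, ρ x < 0 := mul_neg_of_neg_of_pos (by linarith) hρI
    linarith
  set I := ∫ x in (0 : ℝ)..L, g x * ρ x with hI
  obtain ⟨N, c, hNc⟩ := P2_approx hL hfc.continuousOn (ε := -I / (2 * (C + 1) * L))
    (div_pos (by linarith) (by positivity))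
  have hpos := h N c (fun x hx => (mul_nonneg (P2_sin_nonneg hL hx) (hf0 x)).trans (hNc x hx).1)
  have hfl : Continuous (fun x => flow L N c 0 x) := P1_flow_continuous_right L N c 0
  have hdiff : (∫ x in (0 : ℝ)..L, g x * flow L N c 0 x) - I =
      ∫ x in (0 : ℝ)..L, g x * (flow L N c 0 x - ρ x) := by
    rw [hI, ← intervalIntegral.integral_sub]
    · congr 1
      funext x
      ring
    · exact hgI.mul_continuousOn hfl.continuousOn
    · exact hgI.mul_continuousOn hρc.continuousOn
  have hle : ∫ x in (0 : ℝ)..L, g x * (flow L N c 0 x - ρ x) ≤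
      ∫ x in (0 : ℝ)..L, C * (-I / (2 * (C + 1) * L)) := by
    apply intervalIntegral.integral_mono_on_of_le_Ioo hL.le
    · exact hgI.mul_continuousOn (hfl.sub hρc).continuousOn
    · exact intervalIntegrable_const
    · intro x hx
      refine (le_abs_self _).trans ?_
      rw [abs_mul]
      exact mul_le_mul (hb x hx) (hNc x ⟨hx.1.le, hx.2.le⟩).2 (abs_nonneg _) hC
  rw [intervalIntegral.integral_const, smul_eq_mul, sub_zero] at hle
  have h9 : L * (C * (-I / (2 * (C + 1) * L))) = (C / (C + 1)) * (-I / 2) := by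
    field_simp
  have h10 : C / (C + 1) ≤ 1 := by
    rw [div_le_one (by linarith)]
    linarith
  have h11 : (C / (C + 1)) * (-I / 2) ≤ 1 * (-I / 2) :=
    mul_le_mul_of_nonneg_right h10 (by linarith)
  rw [h9] at hle
  linarith

/-- finite sine sums are dense in `L¹` -/
theorem P2_dense_L1 {L : ℝ} (hL : 0 < L) {h : ℝ → ℝ} (hh : Continuous h) {ε : ℝ}
    (hε : 0 < ε) : ∃ (N : ℕ) (c : ℕ → ℝ),
      ∫ x in (0 : ℝ)..L, |h x - flow L N c 0 x| ≤ ε := by
  set η : ℕ → ℝ := fun k => 1 / ((k : ℝ) + 1) with hη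
  have hηpos : ∀ k, 0 < η k := fun k => by rw [hη]; positivity
  have hηt : Tendsto η atTop (𝓝 0) := tendsto_one_div_add_atTop_nhds_zero_nat
  set s : ℝ → ℝ := fun x => Real.sin (Real.pi * x / L) with hs
  have hsc : Continuous s := by rw [hs]; fun_prop
  set f : ℕ → ℝ → ℝ := fun k x => h x / max (η k) (s x) with hf
  have hfc : ∀ k, Continuous (f k) := by
    intro k
    rw [hf]
    apply hh.div (by fun_prop)
    intro x
    exact (lt_of_lt_of_le (hηpos k) (le_max_left _ _)).ne'
  have hlim : Tendsto (fun k => ∫ x in (0 : ℝ)..L, |h x - s x * f k x|) atTop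
      (𝓝 (∫ x in (0 : ℝ)..L, (0 : ℝ))) := by
    apply intervalIntegral.tendsto_integral_filter_of_dominated_convergence (fun x => |h x|)
    · refine Eventually.of_forall fun k => ?_
      exact ((hh.sub (hsc.mul (hfc k))).abs).aestronglyMeasurable
    · refine Eventually.of_forall fun k => Eventually.of_forall fun x hx => ?_
      rw [uIoc_of_le hL.le] at hx
      have h0 : 0 ≤ s x := P2_sin_nonneg hL ⟨hx.1.le, hx.2⟩
      have hm : 0 < max (η k) (s x) := lt_of_lt_of_le (hηpos k) (le_max_left _ _)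
      rw [Real.norm_eq_abs, abs_abs]
      have h1 : h x - s x * f k x = h x * (1 - s x / max (η k) (s x)) := by
        rw [hf]
        simp only
        ring
      rw [h1, abs_mul]
      apply mul_le_of_le_one_right (abs_nonneg _)
      have h2 : 0 ≤ s x / max (η k) (s x) := div_nonneg h0 hm.le
      have h3 : s x / max (η k) (s x) ≤ 1 := by
        rw [div_le_one hm]
        exact le_max_right _ _
      rw [abs_le]
      constructor <;> linarith
    · exact hh.abs.intervalIntegrable _ _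
    · have hne : ∀ᵐ x : ℝ, x ≠ L := by
        rw [ae_iff]
        simp
      filter_upwards [hne] with x hxL hx
      rw [uIoc_of_le hL.le] at hx
      have hpos : 0 < s x := P2_sin_pos hL ⟨hx.1, lt_of_le_of_ne hx.2 hxL⟩
      have hev : ∀ᶠ k in atTop, η k < s x := hηt.eventually_lt_const hpos
      apply Tendsto.congr' (f₁ := fun _ => (0 : ℝ)) _ tendsto_const_nhds
      filter_upwards [hev] with k hk
      have : f k x = h x / s x := by
        rw [hf]
        simp only
        rw [max_eq_right hk.le]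
      rw [this, mul_div_cancel₀ _ hpos.ne', sub_self, abs_zero]
  rw [intervalIntegral.integral_zero] at hlim
  obtain ⟨k, hk⟩ := (hlim.eventually_lt_const (show (0 : ℝ) < ε / 2 by positivity)).exists
  obtain ⟨N, c, hNc⟩ := P2_approx hL (hfc k).continuousOn (ε := ε / (2 * L)) (by positivity)
  refine ⟨N, c, ?_⟩
  have hfl : Continuous (fun x => flow L N c 0 x) := P1_flow_continuous_right L N c 0
  have h1 : ∫ x in (0 : ℝ)..L, |h x - flow L N c 0 x| ≤
      ∫ x in (0 : ℝ)..L, (|h x - s x * f k x| + ε / (2 * L)) := by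
    apply intervalIntegral.integral_mono_on hL.le
    · exact (hh.sub hfl).abs.intervalIntegrable _ _
    · exact ((hh.sub (hsc.mul (hfc k))).abs.add continuous_const).intervalIntegrable _ _
    · intro x hx
      have h2 : h x - flow L N c 0 x = (h x - s x * f k x) - (flow L N c 0 x - s x * f k x) := by
        ring
      rw [h2]
      refine (abs_sub _ _).trans ?_
      exact add_le_add le_rfl (hNc x hx).2
  rw [intervalIntegral.integral_add, intervalIntegral.integral_const, smul_eq_mul, sub_zero]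
    at h1
  · have h3 : L * (ε / (2 * L)) = ε / 2 := by field_simp
    linarith
  · exact (hh.sub (hsc.mul (hfc k))).abs.intervalIntegrable _ _
  · exact intervalIntegrable_const

theorem P2_abs_integral_le {L : ℝ} (hL : 0 < L) {G : ℝ → ℝ} (hG : Continuous G) {a b : ℝ}
    (ha : a ∈ Icc 0 L) (hb : b ∈ Icc 0 L) :
    |∫ x in a..b, G x| ≤ ∫ x in (0 : ℝ)..L, |G x| := by
  have h1 : |∫ x in a..b, G x| ≤ |(∫ x in a..b, |G x|)| := by
    have := intervalIntegral.norm_integral_le_abs_integral_norm (f := G) (a := a) (b := b)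
      (μ := volume)
    simpa [Real.norm_eq_abs] using this
  have h2 : |(∫ x in a..b, |G x|)| ≤ |(∫ x in (0 : ℝ)..L, |G x|)| := by
    apply intervalIntegral.abs_integral_mono_interval
    · rw [uIoc_of_le hL.le, uIoc]
      exact Ioc_subset_Ioc (le_min ha.1 hb.1) (max_le ha.2 hb.2)
    · exact Eventually.of_forall fun x => abs_nonneg _
    · exact hG.abs.intervalIntegrable _ _
  have h3 : 0 ≤ ∫ x in (0 : ℝ)..L, |G x| :=
    intervalIntegral.integral_nonneg hL.le (fun x _ => abs_nonneg _)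
  rw [abs_of_nonneg h3] at h2
  exact h1.trans h2

/-- `C²` functions vanishing at the ends are approximated by finite sine sums -/
theorem dense_C2 {L : ℝ} (hL : 0 < L) {φ : ℝ → ℝ} (hφ : ContDiff ℝ 2 φ) (h0 : φ 0 = 0)
    (h1 : φ L = 0) {ε : ℝ} (hε : 0 < ε) : ∃ (N : ℕ) (c : ℕ → ℝ),
    (∀ x ∈ Icc 0 L, |φ x - flow L N c 0 x| ≤ ε) ∧
    (∫ x in (0 : ℝ)..L, |deriv (deriv φ) x - deriv (deriv (flow L N c 0)) x| ≤ ε) ∧
    |deriv φ 0 - deriv (flow L N c 0) 0| ≤ ε ∧ |deriv φ L - deriv (flow L N c 0) L| ≤ ε := by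
  have hφ1 : ContDiff ℝ 1 (deriv φ) := by
    have : ContDiff ℝ (1 + 1) φ := by
      rw [one_add_one_eq_two]
      exact hφ
    exact (contDiff_succ_iff_deriv.mp this).2.2
  have hφ2 : Continuous (deriv (deriv φ)) := hφ1.continuous_deriv le_rfl
  have hd1 : ∀ x, HasDerivAt φ (deriv φ x) x := fun x =>
    (hφ.differentiable (by norm_num) x).hasDerivAt
  have hd2 : ∀ x, HasDerivAt (deriv φ) (deriv (deriv φ) x) x := fun x =>
    (hφ1.differentiable (by norm_num) x).hasDerivAt
  set ε' := min ε (ε / L) with hε'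
  have hε'pos : 0 < ε' := lt_min hε (by positivity)
  obtain ⟨N, c, hNc⟩ := P2_dense_L1 hL hφ2 hε'pos
  have hmu : ∀ n, mu L n ≠ 0 := by
    intro n
    unfold mu
    positivity
  have hcc : (fun n => -(mu L n) * (-(c n) / mu L n)) = c := by
    funext n
    have := hmu n
    field_simp
  set d : ℕ → ℝ := fun n => -(c n) / mu L n with hd
  have e1 : deriv (flow L N d 0) = flow' L N d 0 := by
    funext x
    exact (P1_flow_hasDerivAt L N d 0 x).deriv
  have e2 : deriv (flow' L N d 0) = flow L N c 0 := by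
    funext x
    have := (P1_flow'_hasDerivAt L N d 0 x).deriv
    rw [hcc] at this
    exact this
  have hfl : Continuous (fun x => flow L N c 0 x) := P1_flow_continuous_right L N c 0
  have hder : ∀ x, HasDerivAt (fun x => flow' L N d 0 x) (flow L N c 0 x) x := by
    intro x
    have := P1_flow'_hasDerivAt L N d 0 x
    rw [hcc] at this
    exact this
  have hG : Continuous (fun x => deriv (deriv φ) x - flow L N c 0 x) := hφ2.sub hfl
  have hsmall : ∫ x in (0 : ℝ)..L, |deriv (deriv φ) x - flow L N c 0 x| ≤ ε' := hNc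
  obtain ⟨ξ, hξ, hξ0⟩ := exists_hasDerivAt_eq_zero
    (f := fun x => φ x - flow L N d 0 x) (f' := fun x => deriv φ x - flow' L N d 0 x) hL
    (by
      have h2 : Continuous (fun x => φ x - flow L N d 0 x) :=
        hφ.continuous.sub (P1_flow_continuous_right L N d 0)
      exact h2.continuousOn)
    (by rw [h0, h1, P1_flow_zero, P1_flow_L hL])
    (fun x _ => (hd1 x).sub (P1_flow_hasDerivAt L N d 0 x))
  have hslope : ∀ x ∈ Icc 0 L, |deriv φ x - flow' L N d 0 x| ≤ ε' := by
    intro x hx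
    have h3 : ∫ y in ξ..x, (deriv (deriv φ) y - flow L N c 0 y) =
        (deriv φ x - flow' L N d 0 x) - (deriv φ ξ - flow' L N d 0 ξ) :=
      intervalIntegral.integral_eq_sub_of_hasDerivAt
        (f := fun x => deriv φ x - flow' L N d 0 x)
        (fun y _ => (hd2 y).sub (hder y)) (hG.intervalIntegrable _ _)
    rw [hξ0, sub_zero] at h3
    rw [← h3]
    exact (P2_abs_integral_le hL hG ⟨hξ.1.le, hξ.2.le⟩ hx).trans hsmall
  refine ⟨N, d, ?_, ?_, ?_, ?_⟩
  · intro x hx
    have h3 : ∫ y in (0 : ℝ)..x, (deriv φ y - flow' L N d 0 y) =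
        (φ x - flow L N d 0 x) - (φ 0 - flow L N d 0 0) :=
      intervalIntegral.integral_eq_sub_of_hasDerivAt
        (f := fun x => φ x - flow L N d 0 x)
        (fun y _ => (hd1 y).sub (P1_flow_hasDerivAt L N d 0 y))
        ((hφ1.continuous.sub (P1_flow'_continuous_right L N d 0)).intervalIntegrable _ _)
    rw [h0, P1_flow_zero, sub_zero, sub_zero] at h3
    rw [← h3]
    have h4 := intervalIntegral.norm_integral_le_of_norm_le_const (a := 0) (b := x)
      (f := fun y => deriv φ y - flow' L N d 0 y) (C := ε') (fun y hy => by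
        rw [uIoc_of_le hx.1] at hy
        exact hslope y ⟨hy.1.le, hy.2.trans hx.2⟩)
    rw [Real.norm_eq_abs, sub_zero, abs_of_nonneg hx.1] at h4
    refine h4.trans ?_
    calc ε' * x ≤ (ε / L) * L :=
          mul_le_mul (min_le_right _ _) hx.2 hx.1 (by positivity)
      _ = ε := by field_simp
  · rw [e1, e2]
    exact hsmall.trans (min_le_left _ _)
  · rw [e1]
    exact (hslope 0 ⟨le_rfl, hL.le⟩).trans (min_le_left _ _)
  · rw [e1]
    exact (hslope L ⟨hL.le, le_rfl⟩).trans (min_le_left _ _)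

end Pool.Agent.H62.LV
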